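import Pool.Agent.Helper54.DI.StmtsC

/-! The prime ideal of a component which is not a flat. -/

namespace Pool.Agent.Helper45.DI

open Finset Filter Topology Pool.Agent.Helper54.DI

/-- the vanishing ideal -/
noncomputable def vI {d : ℕ} (B : Set (Fin d → ℝ)) : Ideal (MvPolynomial (Fin d) KK) where
  carrier := {p | ∀ x ∈ B, MvPolynomial.aeval x p = 0}
  zero_mem' := by
    intro x _
    exact map_zero _
  add_mem' := by
    intro p q hp hq x hx
    rw [map_add, hp x hx, hq x hx, add_zero]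
  smul_mem' := by
    intro r p hp x hx
    rw [smul_eq_mul, map_mul, hp x hx, mul_zero]

theorem mem_vI {d : ℕ} (B : Set (Fin d → ℝ)) (p : MvPolynomial (Fin d) KK) :
    p ∈ vI B ↔ ∀ x ∈ B, MvPolynomial.aeval x p = 0 := Iff.rfl

/-- a prime ideal spanned by its forms has a zero set defined by finitely many forms -/
theorem flat_forms (hTOP : ST_TOP) {d : ℕ} (Q : Ideal (MvPolynomial (Fin d) KK))
    (hQ : Q ≤ Ideal.span {g | g ∈ Q ∧ ∃ f : KForm d, g = toP f}) :
    ∃ F : List (KForm d), ∀ x : Fin d → ℝ,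
      (∀ g ∈ Q, MvPolynomial.aeval x g = 0) ↔ ∀ f ∈ F, kev f x = 0 := by
  classical
  let S : Set (MvPolynomial (Fin d) KK) := {g | g ∈ Q ∧ ∃ f : KForm d, g = toP f}
  have hfg : (Ideal.span S).FG := IsNoetherian.noetherian _
  obtain ⟨T, hTS, hT⟩ := (Submodule.fg_span_iff_fg_span_finset_subset S).mp hfg
  have hch : ∀ g : MvPolynomial (Fin d) KK, g ∈ T → ∃ f : KForm d, g = toP f :=
    fun g hg => (hTS hg).2
  choose! φ hφ using hch
  refine ⟨T.toList.map φ, fun x => ⟨fun h f hf => ?_, fun h g hg => ?_⟩⟩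
  · obtain ⟨g, hg, rfl⟩ := List.mem_map.mp hf
    rw [Finset.mem_toList] at hg
    rw [← hTOP, ← hφ g hg]
    exact h g (hTS hg).1
  · have h1 : g ∈ Submodule.span (MvPolynomial (Fin d) KK) (T : Set (MvPolynomial (Fin d) KK)) := by
      rw [← hT]
      exact hQ hg
    have h2 : Submodule.span (MvPolynomial (Fin d) KK) (T : Set (MvPolynomial (Fin d) KK)) ≤
        vI {x} := by
      rw [Submodule.span_le]
      intro t ht
      rw [SetLike.mem_coe, mem_vI]
      intro y hy
      rw [Set.mem_singleton_iff] at hy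
      subst hy
      rw [hφ t ht, hTOP]
      exact h _ (List.mem_map.mpr ⟨t, Finset.mem_toList.mpr ht, rfl⟩)
    exact (mem_vI _ _).mp (h2 h1) x rfl

theorem st_P1 (hTOP : ST_TOP) : ST_P1 := by
  intro d A hA hSL
  classical
  obtain ⟨I, hI⟩ := hA
  set J := vI A with hJ
  have hIJ : I ≤ J := fun g hg x hx => (hI x).mp hx g hg
  have hne : A.Nonempty := by
    by_contra hcon
    rw [Set.not_nonempty_iff_eq_empty] at hcon
    apply hSL
    exact ⟨[], fun x y _ => by rw [hcon]; exact Iff.rfl⟩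
  have hrad : J.radical = J := by
    apply le_antisymm
    · intro g hg
      obtain ⟨n, hn⟩ := Ideal.mem_radical_iff.mp hg
      intro x hx
      have h1 := (mem_vI A _).mp hn x hx
      rw [map_pow] at h1
      exact eq_zero_of_pow_eq_zero h1
    · exact Ideal.le_radical
  have hfin : J.minimalPrimes.Finite := Ideal.finite_minimalPrimes_of_isNoetherianRing _ _
  have hJmem : ∀ g : MvPolynomial (Fin d) KK, (∀ Q ∈ J.minimalPrimes, g ∈ Q) → g ∈ J := by
    intro g hg
    have h1 : g ∈ sInf J.minimalPrimes := by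
      rw [Submodule.mem_sInf]
      exact hg
    rw [Ideal.sInf_minimalPrimes, hrad] at h1
    exact h1
  have hVA : ∀ Q ∈ J.minimalPrimes, ∀ x : Fin d → ℝ, (∀ g ∈ Q, MvPolynomial.aeval x g = 0) →
      x ∈ A := by
    intro Q hQ x hx
    rw [hI]
    intro g hg
    exact hx g (hQ.1.2 (hIJ hg))
  have hex : ∃ P ∈ J.minimalPrimes, ¬ P ≤ Ideal.span {g | g ∈ P ∧ ∃ f : KForm d, g = toP f} := by
    by_contra hcon
    push Not at hcon
    apply hSL
    have hch : ∀ Q : Ideal (MvPolynomial (Fin d) KK), Q ∈ J.minimalPrimes →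
        ∃ F : List (KForm d), ∀ x : Fin d → ℝ,
        (∀ g ∈ Q, MvPolynomial.aeval x g = 0) ↔ ∀ f ∈ F, kev f x = 0 :=
      fun Q hQ => flat_forms hTOP Q (hcon Q hQ)
    choose! Φ hΦ using hch
    have hmem : ∀ x : Fin d → ℝ, x ∈ A ↔ ∃ Q ∈ J.minimalPrimes, ∀ f ∈ Φ Q, kev f x = 0 := by
      intro x
      constructor
      · intro hx
        by_contra hno
        push Not at hno
        have hch2 : ∀ Q : Ideal (MvPolynomial (Fin d) KK), Q ∈ J.minimalPrimes →
            ∃ g ∈ Q, MvPolynomial.aeval x g ≠ 0 := by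
          intro Q hQ
          by_contra h1
          push Not at h1
          obtain ⟨f, hf, hf0⟩ := hno Q hQ
          exact hf0 ((hΦ Q hQ x).mp h1 f hf)
        choose! G hG hG0 using hch2
        have h1 : (∏ Q ∈ hfin.toFinset, G Q) ∈ J := by
          apply hJmem
          intro Q hQ
          exact Ideal.mem_of_dvd Q
            (Finset.dvd_prod_of_mem G (hfin.mem_toFinset.mpr hQ)) (hG Q hQ)
        have h2 := (mem_vI A _).mp h1 x hx
        rw [map_prod] at h2
        obtain ⟨Q, hQ, hQ0⟩ := Finset.prod_eq_zero_iff.mp h2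
        exact hG0 Q (hfin.mem_toFinset.mp hQ) hQ0
      · rintro ⟨Q, hQ, hx⟩
        exact hVA Q hQ x ((hΦ Q hQ x).mpr hx)
    refine ⟨(hfin.toFinset.toList.map Φ).flatten, fun x y hxy => ?_⟩
    have hz : ∀ Q ∈ J.minimalPrimes, ∀ f ∈ Φ Q, (kev f x = 0 ↔ kev f y = 0) := by
      intro Q hQ f hf
      have h1 := hxy f (List.mem_flatten.mpr ⟨Φ Q, List.mem_map.mpr
        ⟨Q, Finset.mem_toList.mpr (hfin.mem_toFinset.mpr hQ), rfl⟩, hf⟩)
      rw [← sign_eq_zero_iff, h1, sign_eq_zero_iff]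
    rw [hmem, hmem]
    constructor
    · rintro ⟨Q, hQ, h⟩
      exact ⟨Q, hQ, fun f hf => (hz Q hQ f hf).mp (h f hf)⟩
    · rintro ⟨Q, hQ, h⟩
      exact ⟨Q, hQ, fun f hf => (hz Q hQ f hf).mpr (h f hf)⟩
  obtain ⟨P, hP, hPs⟩ := hex
  have hPp : P.IsPrime := hP.1.1
  have hJP : J ≤ P := hP.1.2
  have hne2 : ¬ ((hfin.toFinset.erase P).inf id ≤ P) := by
    intro hle
    rw [Ideal.IsPrime.inf_le' hPp] at hle
    obtain ⟨Q, hQ, hQP⟩ := hle
    rw [Finset.mem_erase, Set.Finite.mem_toFinset] at hQ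
    have h1 : P ≤ Q := hP.2 hQ.2.1 hQP
    exact hQ.1 (le_antisymm hQP h1)
  obtain ⟨c, hc1, hc2⟩ := SetLike.not_le_iff_exists.mp hne2
  have hcQ : ∀ Q ∈ J.minimalPrimes, Q ≠ P → c ∈ Q := by
    intro Q hQ hQP
    have h1 : (hfin.toFinset.erase P).inf id ≤ id Q :=
      Finset.inf_le (Finset.mem_erase.mpr ⟨hQP, hfin.mem_toFinset.mpr hQ⟩)
    exact h1 hc1
  refine ⟨P, c, hPp, hc2, ?_, ?_, hVA P hP, hPs⟩
  · intro g hg x hx hcx
    have h1 : g * c ∈ J := by
      apply hJmem
      intro Q hQ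
      by_cases hQP : Q = P
      · subst hQP
        exact Ideal.mul_mem_right c Q hg
      · exact Ideal.mul_mem_left Q g (hcQ Q hQ hQP)
    have h2 := (mem_vI A _).mp h1 x hx
    rw [map_mul] at h2
    exact (mul_eq_zero.mp h2).resolve_right hcx
  · intro h hh
    have h1 : h * c ∉ J := by
      intro hmem
      rcases hPp.mem_or_mem (hJP hmem) with h2 | h2
      · exact hh h2
      · exact hc2 h2
    rw [hJ, mem_vI] at h1
    push Not at h1
    obtain ⟨x, hx, hval⟩ := h1
    rw [map_mul] at hval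
    exact ⟨x, hx, right_ne_zero_of_mul hval, left_ne_zero_of_mul hval⟩

end Pool.Agent.Helper45.DI
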