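import Pool.Agent.Helper54.DI.StmtsB

namespace Pool.Agent.Helper54.DI

open Finset Filter Topology Pool.Agent.Helper54.ETR Pool.Agent.Helper54.Poly

namespace PTX

theorem ren_term {α : Type} [TEnc α] (g : α → ℕ → ℕ) (hg : ∀ i, PT (fun a => g a i)) :
    ∀ t : Term, PT (fun a => (t.ren (g a)).toks)
  | Term.zero => PT.const _
  | Term.one => PT.const _
  | Term.var i => PTvt (hg i)
  | Term.add s t => PTqb Tok.add (ren_term g hg s) (ren_term g hg t)
  | Term.sub s t => PTqb Tok.sub (ren_term g hg s) (ren_term g hg t)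
  | Term.mul s t => PTqb Tok.mul (ren_term g hg s) (ren_term g hg t)

theorem ren_form {α : Type} [TEnc α] (g : α → ℕ → ℕ) (hg : ∀ i, PT (fun a => g a i)) :
    ∀ p : Form, PT (fun a => (p.ren (g a)).toks)
  | Form.lt s t => PTqb Tok.lt (ren_term g hg s) (ren_term g hg t)
  | Form.le s t => PTqb Tok.le (ren_term g hg s) (ren_term g hg t)
  | Form.eq s t => PTqb Tok.eq (ren_term g hg s) (ren_term g hg t)
  | Form.ge s t => PTqb Tok.ge (ren_term g hg s) (ren_term g hg t)
  | Form.gt s t => PTqb Tok.gt (ren_term g hg s) (ren_term g hg t)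
  | Form.and p q => PTqb Tok.and (ren_form g hg p) (ren_form g hg q)
  | Form.or p q => PTqb Tok.or (ren_form g hg p) (ren_form g hg q)
  | Form.not p => PT.lcons (PT.const _) (ren_form g hg p)

theorem getD_form {α : Type} [TEnc α] (h : ST_PTREN) (g : α → ℕ → ℕ)
    (hg : ∀ i, PT (fun a => g a i)) : ∀ (L : List Form) (i : α → ℕ), PT i →
    PT (fun a => ((L.getD (i a) dF).ren (g a)).toks)
  | [], i, hi => (h dF α g hg).congr fun a => by rw [List.getD_nil]
  | ψ :: L, i, hi => by
    have h1 := getD_form h g hg L (fun a => i a - 1) (PT.sub hi (PT.const 1))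
    refine (PT.ite (PT.eqN hi (PT.const 0)) (h ψ α g hg) h1).congr fun a => ?_
    rcases hi0 : i a with _ | k
    · simp
    · simp

/-- symbols of one instance -/
def body (L : List Form) (N B t : ℕ) (it : ℕ × List ℕ) : List Tok :=
  Tok.and :: ((L.getD it.1 dF).ren
    (fun j => if j < it.2.length then it.2.getD j 0 else B + N * t + j)).toks

theorem PTbody {α : Type} [TEnc α] (h : ST_PTREN) (L : List Form) (N : ℕ) {B t : α → ℕ}
    {it : α → ℕ × List ℕ} (hB : PT B) (ht : PT t) (hit : PT it) :
    PT (fun a => body L N (B a) (t a) (it a)) := by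
  refine PT.lcons (PT.const _) ?_
  refine getD_form h (fun a j => if j < (it a).2.length then (it a).2.getD j 0
    else B a + N * t a + j) ?_ L (fun a => (it a).1) hit.fst
  intro j
  have h1 : PT (fun a => decide (j + 1 ≤ (it a).2.length)) :=
    PT.leN (PT.const (j + 1)) (PT.length hit.snd)
  have h2 : PT (fun a => (it a).2.getD j 0) := PT.getD (PT.const j) hit.snd (PT.const 0)
  have h3 : PT (fun a => B a + N * t a + j) :=
    PT.add (PT.add hB (PT.mul (PT.const N) ht)) (PT.const j)
  refine (PT.ite h1 h2 h3).congr fun a => ?_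
  by_cases hj : j < (it a).2.length
  · rw [if_pos hj, if_pos (by simpa using hj)]
  · rw [if_neg hj, if_neg (by simpa using hj)]

theorem inst_toks (L : List Form) (B N : ℕ) : ∀ (l : List (ℕ × List ℕ)) (t : ℕ),
    (inst L B N t l).toks =
      ((List.range l.length).flatMap fun i => body L N B (t + i) (l.getD i (0, []))) ++ dF.toks
  | [], t => by simp [inst]
  | it :: l, t => by
    rw [List.length_cons, List.range_succ_eq_map, List.flatMap_cons, List.flatMap_map]
    have h1 := inst_toks L B N l (t + 1)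
    have h2 : (List.range l.length).flatMap
        (fun i => body L N B (t + Nat.succ i) ((it :: l).getD (Nat.succ i) (0, []))) =
        (List.range l.length).flatMap
          (fun i => body L N B (t + 1 + i) (l.getD i (0, []))) := by
      refine List.flatMap_congr fun i _ => ?_
      rw [List.getD_cons_succ, Nat.succ_eq_add_one, show t + (i + 1) = t + 1 + i by omega]
    rw [h2]
    change Tok.and :: (_ ++ (inst L B N (t + 1) l).toks) = _
    rw [h1, List.getD_cons_zero]
    simp only [body, List.cons_append, List.append_assoc, Nat.add_zero]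

end PTX

theorem st_PTREN : ST_PTREN := fun χ _ _ g hg => PTX.ren_form g hg χ

theorem st_PTINST (h : ST_PTREN) : ST_PTINST := by
  intro L N α _ B l hB hl
  have h1 : PT (fun z : α × ℕ => PTX.body L N (B z.1) z.2 ((l z.1).getD z.2 (0, []))) :=
    PTX.PTbody h L N (hB.comp PT.id.fst) PT.id.snd
      (PT.getD PT.id.snd (hl.comp PT.id.fst) (PT.const _))
  refine (PT.append (PT.flatMap h1 (PT.range (PT.length hl))) (PT.const dF.toks)).congr
    fun a => ?_
  rw [PTX.inst_toks]
  simp only [Nat.zero_add]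

namespace PTX

/-- one step of `vnum` -/
def vstep (t : Tok) (st : List ℕ) : List ℕ := match t with
  | Tok.e => 0 :: st
  | Tok.s => (match st with
    | [] => []
    | i :: st' => (i + 1) :: st')
  | _ => st

theorem vnum_eq (l : List Tok) : vnum l = l.foldr vstep [] := rfl

theorem PTvstep : PT (fun z : Tok × List ℕ => vstep z.1 z.2) := by
  refine PTtok (α := Tok × List ℕ) (t := fun z => z.1) PT.id.fst (fun t z => vstep t z.2) ?_
  intro t
  have hid : PT (fun z : Tok × List ℕ => z.2) := PT.id.snd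
  cases t
  case e => exact PT.lcons (PT.const 0) hid
  case s =>
    refine (PT.listCase (l := fun z : Tok × List ℕ => z.2) hid (PT.const [])
      (g := fun y => (y.2.1 + 1) :: y.2.2) (PT.lcons (PT.succ PT.id.snd.fst)
        PT.id.snd.snd)).congr fun z => ?_
    rcases z with ⟨t, _ | ⟨i, st⟩⟩ <;> rfl
  all_goals exact hid

theorem vstep_sz (t : Tok) (st : List ℕ) : sz (vstep t st) ≤ sz st + 2 := by
  cases t
  case e =>
    change sz (0 :: st) ≤ _
    rw [sz_cons, sz_nat]
    omega
  case s =>
    rcases st with _ | ⟨i, st⟩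
    · change sz ([] : List ℕ) ≤ _
      omega
    · change sz ((i + 1) :: st) ≤ _
      rw [sz_cons, sz_cons, sz_nat, sz_nat]
      omega
  all_goals exact Nat.le_add_right _ _

theorem PTvnum {α : Type} [TEnc α] {l : α → List Tok} (hl : PT l) :
    PT (fun a => vnum (l a)) := by
  refine (PTfoldr (f := vstep) (x := []) PTvstep hl (2 * Polynomial.X + 1) ?_).congr
    fun a => (vnum_eq _).symm
  intro m
  induction m with
  | nil => simp [sz_nil]
  | cons t m ih =>
    have h1 := vstep_sz t (m.foldr vstep [])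
    rw [List.foldr_cons, List.length_cons]
    simp only [Polynomial.eval_add, Polynomial.eval_mul, Polynomial.eval_ofNat,
      Polynomial.eval_X, Polynomial.eval_one] at ih ⊢
    omega

theorem PTQB {α : Type} [TEnc α] {n : α → ℕ} (hn : PT n) : PT (fun a => QB (n a)) := by
  have h1 : PT (fun a => 24 * n a + 4) := PT.add (PT.mul (PT.const 24) hn) (PT.const 4)
  have h2 : PT (fun a => (6 * ((24 * n a + 4) + 2) + 1)) :=
    PT.add (PT.mul (PT.const 6) (PT.add h1 (PT.const 2))) (PT.const 1)
  have h3 : PT (fun a => n a + 1) := PT.succ hn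
  have h4 : PT (fun a => 6 * (((24 * n a + 4) + 2) + ((24 * n a + 4) + 3))) :=
    PT.mul (PT.const 6) (PT.add (PT.add h1 (PT.const 2)) (PT.add h1 (PT.const 3)))
  exact PT.add (PT.mul h2 h3) (PT.add (PT.const 1)
    (PT.mul (PT.add (PT.const 9) h4) (PT.mul h3 h2)))

theorem PTj2 {α : Type} [TEnc α] (c : ℕ) {n : α → ℕ} (hn : PT n) : PT (fun a => j2 c (n a)) :=
  PT.add (PT.add (PT.add (PT.mul (PT.const 3) (PTQB hn)) (PT.mul (PT.const 2) hn))
    (PT.const 3)) (PT.const (2 * c))

theorem PTj3 {α : Type} [TEnc α] (c : ℕ) {n : α → ℕ} (hn : PT n) : PT (fun a => j3 c (n a)) :=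
  PT.add (PT.add (PT.add (PT.mul (PT.const 2) (PTQB hn)) (PT.mul (PT.const 2) hn))
    (PT.const 3)) (PT.const c)

theorem PTgitem {α : Type} [TEnc α] (c : ℕ) {n : α → ℕ} {l : α → List Tok} (hn : PT n)
    (hl : PT l) : PT (fun a => gitem c (n a) (l a)) := by
  have hj := PTj2 c hn
  have h1 : PT (fun z : α × ℕ => j2 c (n z.1) + 4 + z.2) :=
    PT.add (PT.add (hj.comp PT.id.fst) (PT.const 4)) PT.id.snd
  have h2 : PT (fun a => (vnum (l a)).map (fun i => j2 c (n a) + 4 + i)) :=
    PT.map h1 (PTvnum hl)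
  have ht : PT (fun a => (l a).getD 1 Tok.zero) := PT.getD (PT.const 1) hl (PT.const _)
  refine PTtok (t := fun a => (l a).getD 1 Tok.zero) ht (fun t a => match t with
    | Tok.mul => (5, (vnum (l a)).map (fun i => j2 c (n a) + 4 + i) ++
        [j2 c (n a), j2 c (n a) + 3])
    | Tok.add => (3, (vnum (l a)).map (fun i => j2 c (n a) + 4 + i))
    | _ => (2, (vnum (l a)).map (fun i => j2 c (n a) + 4 + i) ++ [j2 c (n a)])) ?_
  intro t
  have hm : PT (fun a => ((5, (vnum (l a)).map (fun i => j2 c (n a) + 4 + i) ++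
      [j2 c (n a), j2 c (n a) + 3]) : ℕ × List ℕ)) :=
    (PT.const 5).pair (PT.append h2 (PT.lcons hj (PT.lcons (PT.add hj (PT.const 3))
      (PT.const []))))
  have ha : PT (fun a => ((3, (vnum (l a)).map (fun i => j2 c (n a) + 4 + i)) : ℕ × List ℕ)) :=
    (PT.const 3).pair h2
  have he : PT (fun a => ((2, (vnum (l a)).map (fun i => j2 c (n a) + 4 + i) ++
      [j2 c (n a)]) : ℕ × List ℕ)) :=
    (PT.const 2).pair (PT.append h2 (PT.lcons hj (PT.const [])))
  cases t
  case mul => exact hm
  case add => exact ha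
  all_goals exact he

end PTX

theorem st_PTITM : ST_PTITM := by
  intro c α _ g hg
  have hn : PT (fun a => (g a).length) := PT.length hg
  have hj := PTX.PTj2 c hn
  have hj1 : PT (fun a => j1 (g a).length) := PTX.PTQB hn
  have hj3 := PTX.PTj3 c hn
  refine ⟨?_, PT.add (PT.add hj (PT.const 4)) hn⟩
  have hr1 : PT (fun a => (List.range (j2 c (g a).length + 1)).map
      (fun j => ((1, [j, j, j + 1]) : ℕ × List ℕ))) := by
    have h : PT (fun z : α × ℕ => ((1, [z.2, z.2, z.2 + 1]) : ℕ × List ℕ)) :=
      (PT.const 1).pair (PT.lcons PT.id.snd (PT.lcons PT.id.snd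
        (PT.lcons (PT.succ PT.id.snd) (PT.const []))))
    exact PT.map h (PT.range (PT.succ hj))
  have hr2 : PT (fun a => (List.range (g a).length).map
      (fun i => ((4, [j2 c (g a).length + 4 + i, j2 c (g a).length + 2]) : ℕ × List ℕ))) := by
    have h : PT (fun z : α × ℕ => ((4, [j2 c (g z.1).length + 4 + z.2,
        j2 c (g z.1).length + 2]) : ℕ × List ℕ)) :=
      (PT.const 4).pair (PT.lcons (PT.add (PT.add (hj.comp PT.id.fst) (PT.const 4)) PT.id.snd)
        (PT.lcons (PT.add (hj.comp PT.id.fst) (PT.const 2)) (PT.const [])))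
    exact PT.map h (PT.range hn)
  have hr3 : PT (fun a => (g a).map (gitem c (g a).length)) := by
    have h : PT (fun z : α × List Tok => gitem c (g z.1).length z.2) :=
      PTX.PTgitem c (hn.comp PT.id.fst) PT.id.snd
    exact PT.map h hg
  have h0 : PT (fun _ : α => ((0, [0]) : ℕ × List ℕ)) := PT.const _
  have h1 : PT (fun a => ((1, [j2 c (g a).length + 2, j1 (g a).length, j2 c (g a).length]) :
      ℕ × List ℕ)) :=
    (PT.const 1).pair (PT.lcons (PT.add hj (PT.const 2)) (PT.lcons hj1 (PT.lcons hj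
      (PT.const []))))
  have h2 : PT (fun a => ((1, [j2 c (g a).length + 1, j3 c (g a).length,
      j2 c (g a).length + 3]) : ℕ × List ℕ)) :=
    (PT.const 1).pair (PT.lcons (PT.add hj (PT.const 1)) (PT.lcons hj3
      (PT.lcons (PT.add hj (PT.const 3)) (PT.const []))))
  exact PT.lcons h0 (PT.append hr1 (PT.lcons h1 (PT.lcons h2 (PT.append hr2 hr3))))

end Pool.Agent.Helper54.DI

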